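import Mathlib
import Pool.Agent.Y5.D.Defs

/-!
Job NSK-LIM (project NSK of helper6), part A: quadratic terms on vectors with a summable bound.
-/

open Set Filter Topology MeasureTheory

set_option autoImplicit false

namespace Pool.Agent.Y665.NSK

open Pool.Agent.Y5.D

section quad

variable {I : Type} {c : I → I → I → ℝ} {Bd Lc : I → ℝ}

/-- the dominating function -/
def dom (c : I → I → I → ℝ) (Bd : I → ℝ) (i : I) (p : I × I) : ℝ :=
  |c i p.1 p.2| * (Bd p.1 * Bd p.2)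

lemma dom_nonneg (hB : ∀ a, 0 ≤ Bd a) (i : I) (p : I × I) : 0 ≤ dom c Bd i p :=
  mul_nonneg (abs_nonneg _) (mul_nonneg (hB _) (hB _))

lemma dom_summable {i : I} {R : ℝ} (hR : ∀ a b, |c i a b| ≤ R) (hB : ∀ a, 0 ≤ Bd a)
    (hs : Summable Bd) : Summable (dom c Bd i) := by
  have h := Summable.mul_of_nonneg hs hs hB hB
  refine Summable.of_nonneg_of_le (fun p => dom_nonneg hB i p) (fun p => ?_) (h.mul_left R)
  exact mul_le_mul_of_nonneg_right (hR _ _) (mul_nonneg (hB _) (hB _))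

/-- controlled vectors -/
def Ctl (Bd : I → ℝ) (x : I → ℝ) : Prop := (∀ a, |x a| ≤ 1) ∧ ∀ a, |x a| ≤ Bd a

lemma Ctl.term {x y : I → ℝ} (hx : Ctl Bd x) (hy : Ctl Bd y) (i : I) (p : I × I) :
    |c i p.1 p.2 * x p.1 * y p.2| ≤ dom c Bd i p := by
  rw [abs_mul, abs_mul, mul_assoc]
  refine mul_le_mul_of_nonneg_left ?_ (abs_nonneg _)
  exact mul_le_mul (hx.2 _) (hy.2 _) (abs_nonneg _) ((abs_nonneg _).trans (hx.2 _))

lemma Ctl.summable {i : I} {R : ℝ} (hR : ∀ a b, |c i a b| ≤ R) (hB : ∀ a, 0 ≤ Bd a)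
    (hs : Summable Bd) {x : I → ℝ} (hx : Ctl Bd x) :
    Summable (fun p : I × I => c i p.1 p.2 * x p.1 * x p.2) :=
  Summable.of_norm_bounded (dom_summable hR hB hs) fun p => hx.term hx i p

/-- the modulus of continuity of the quadratic term -/
noncomputable def wq (c : I → I → I → ℝ) (Bd Lc : I → ℝ) (i : I) (δ : ℝ) : ℝ :=
  ∑' p : I × I, min (2 * dom c Bd i p) (|c i p.1 p.2| * (Lc p.1 + Lc p.2) * δ)

lemma wq_summable {i : I} {R : ℝ} (hR : ∀ a b, |c i a b| ≤ R) (hB : ∀ a, 0 ≤ Bd a)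
    (hs : Summable Bd) (hL : ∀ a, 0 ≤ Lc a) {δ : ℝ} (hδ : 0 ≤ δ) :
    Summable (fun p : I × I => min (2 * dom c Bd i p)
      (|c i p.1 p.2| * (Lc p.1 + Lc p.2) * δ)) := by
  refine Summable.of_nonneg_of_le (fun p => ?_) (fun p => min_le_left _ _)
    ((dom_summable hR hB hs).mul_left 2)
  have h1 := dom_nonneg (c := c) hB i p
  have h2 := hL p.1
  have h3 := hL p.2
  exact le_min (by positivity) (by positivity)

lemma wq_mono {i : I} {R : ℝ} (hR : ∀ a b, |c i a b| ≤ R) (hB : ∀ a, 0 ≤ Bd a)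
    (hs : Summable Bd) (hL : ∀ a, 0 ≤ Lc a) {δ δ' : ℝ} (hδ : 0 ≤ δ) (h : δ ≤ δ') :
    wq c Bd Lc i δ ≤ wq c Bd Lc i δ' := by
  refine Summable.tsum_le_tsum (fun p => ?_) (wq_summable hR hB hs hL hδ)
    (wq_summable hR hB hs hL (hδ.trans h))
  have h2 := hL p.1
  have h3 := hL p.2
  exact min_le_min le_rfl (mul_le_mul_of_nonneg_left h (by positivity))

lemma wq_tendsto {i : I} {R : ℝ} (hR : ∀ a b, |c i a b| ≤ R) (hB : ∀ a, 0 ≤ Bd a)
    (hs : Summable Bd) (hL : ∀ a, 0 ≤ Lc a) :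
    Tendsto (wq c Bd Lc i) (𝓝[≥] 0) (𝓝 0) := by
  have h := tendsto_tsum_of_dominated_convergence (𝓕 := 𝓝[≥] (0 : ℝ))
    (f := fun (δ : ℝ) (p : I × I) => min (2 * dom c Bd i p)
      (|c i p.1 p.2| * (Lc p.1 + Lc p.2) * δ))
    (g := fun _ => 0) (bound := fun p => 2 * dom c Bd i p)
    ((dom_summable hR hB hs).mul_left 2) ?_ ?_
  · rw [tsum_zero] at h
    exact h
  · intro p
    have h1 := dom_nonneg (c := c) hB i p
    have hc : Continuous (fun δ : ℝ => min (2 * dom c Bd i p)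
      (|c i p.1 p.2| * (Lc p.1 + Lc p.2) * δ)) := by fun_prop
    have h2 := (hc.tendsto 0).mono_left (nhdsWithin_le_nhds (s := Ici 0))
    rw [mul_zero, min_eq_right (by positivity)] at h2
    exact h2
  · filter_upwards [self_mem_nhdsWithin] with δ hδ p
    have hδ' : 0 ≤ δ := hδ
    have h1 := dom_nonneg (c := c) hB i p
    have h2 := hL p.1
    have h3 := hL p.2
    rw [Real.norm_eq_abs, abs_of_nonneg (le_min (by positivity) (by positivity))]
    exact min_le_left _ _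

lemma qd_diff {i : I} {R : ℝ} (hR : ∀ a b, |c i a b| ≤ R) (hB : ∀ a, 0 ≤ Bd a)
    (hs : Summable Bd) (hL : ∀ a, 0 ≤ Lc a) {x y : I → ℝ} (hx : Ctl Bd x) (hy : Ctl Bd y)
    {δ : ℝ} (hδ : 0 ≤ δ) (hd : ∀ a, |x a - y a| ≤ Lc a * δ) :
    |qd c x i - qd c y i| ≤ wq c Bd Lc i δ := by
  unfold qd
  rw [← (hx.summable hR hB hs).tsum_sub (hy.summable hR hB hs)]
  refine tsum_of_norm_bounded (f := fun p : I × I => c i p.1 p.2 * x p.1 * x p.2 -
    c i p.1 p.2 * y p.1 * y p.2) (wq_summable hR hB hs hL hδ).hasSum fun p => ?_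
  rw [Real.norm_eq_abs]
  refine le_min ?_ ?_
  · refine (abs_sub _ _).trans ?_
    have h1 := hx.term (c := c) hx i p
    have h2 := hy.term (c := c) hy i p
    linarith
  · have h1 : c i p.1 p.2 * x p.1 * x p.2 - c i p.1 p.2 * y p.1 * y p.2 =
        c i p.1 p.2 * ((x p.1 - y p.1) * x p.2 + y p.1 * (x p.2 - y p.2)) := by ring
    rw [h1, abs_mul, mul_assoc]
    refine mul_le_mul_of_nonneg_left ?_ (abs_nonneg _)
    refine (abs_add_le _ _).trans ?_
    rw [abs_mul, abs_mul, add_mul]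
    have h2 := hd p.1
    have h3 := hd p.2
    have h4 := hx.1 p.2
    have h5 := hy.1 p.1
    have h6 := abs_nonneg (x p.1 - y p.1)
    have h7 := abs_nonneg (x p.2 - y p.2)
    have h8 := abs_nonneg (x p.2)
    have h9 := abs_nonneg (y p.1)
    nlinarith

end quad

end Pool.Agent.Y665.NSK
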