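import Pool.Agent.Y6.N.Stm
import Pool.Agent.Y665.NSK.LimA

/-!
Job NSK-LIM (project NSK of helper6): limits of the solutions of the truncated systems along an
ultrafilter.
-/

open Set Filter Topology MeasureTheory

set_option autoImplicit false

namespace Pool.Agent.Y665.NSK

open Pool.Agent.Y5 Pool.Agent.Y5.D Pool.Agent.Y6.N
open Pool.Agent.Y6.K (Kz lv)

variable {J : Type} {g o : J → ℕ} {σ : J → J} {τ : J → ℝ} {lm L C M ℓ ρ E : ℕ → ℝ}
  {B : ℕ → ℕ → ℝ} {D : Ix J → Ix J → ℝ} {c : Ix J → Ix J → Ix J → ℝ} {Θ : ℝ} {S : ℕ → ℝ}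

/-! ### The parameters -/

lemma L_two (h : Pool.Agent.Y6.N.Seq lm L C ℓ M B) (n : ℕ) : (2 : ℝ) ^ n ≤ L n := by
  induction n with
  | zero => simpa using h.L0
  | succ n ih =>
    have h1 := h.lm_succ n
    have h2 := h.lm_big (n + 1)
    have h3 : (1 : ℝ) ≤ 2 ^ n := one_le_pow₀ (by norm_num)
    rw [pow_succ, ← h1]
    nlinarith

/-- the bound of the modes -/
noncomputable def Bd (L : ℕ → ℝ) (b : J → ℝ) (X : ℝ) : Ix J → ℝ
  | Sum.inl n => |X| / L n
  | Sum.inr j => b j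

lemma Bd_nonneg (h : Pool.Agent.Y6.N.Seq lm L C ℓ M B) {b : J → ℝ} (hb : ∀ j, 0 ≤ b j) (X : ℝ) (a : Ix J) :
    0 ≤ Bd L b X a := by
  cases a with
  | inl n =>
    have h1 := L_two h n
    have h2 : (0 : ℝ) < 2 ^ n := by positivity
    exact div_nonneg (abs_nonneg _) (by linarith)
  | inr j => exact hb j

lemma Bd_summable (h : Pool.Agent.Y6.N.Seq lm L C ℓ M B) {b : J → ℝ} (hs : Summable b) (X : ℝ) :
    Summable (Bd L b X : Ix J → ℝ) := by
  refine Summable.sum _ ?_ hs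
  have h1 : Summable (fun n : ℕ => |X| * (1 / 2 : ℝ) ^ n) := summable_geometric_two.mul_left _
  refine Summable.of_nonneg_of_le (fun n => ?_) (fun n => ?_) h1
  · have h2 := L_two h n
    have h3 : (0 : ℝ) < 2 ^ n := by positivity
    exact div_nonneg (abs_nonneg _) (by linarith)
  · have h2 := L_two h n
    have h3 : (0 : ℝ) < 2 ^ n := by positivity
    show |X| / L n ≤ |X| * (1 / 2 : ℝ) ^ n
    rw [div_eq_mul_inv, one_div, inv_pow]
    exact mul_le_mul_of_nonneg_left (inv_anti₀ h3 h2) (abs_nonneg _)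

/-! ### The linear terms -/

/-- the partner -/
def sw (σ : J → J) : Ix J → Ix J
  | Sum.inl n => Sum.inl n
  | Sum.inr j => Sum.inr (σ j)

/-- the coefficient of the rotation -/
noncomputable def kc (S : ℕ → ℝ) (o : J → ℕ) (τ : J → ℝ) : Ix J → ℝ
  | Sum.inl _ => 0
  | Sum.inr j => S (o j) * τ j

lemma Kz_eq (z : Ix J → ℝ) (i : Ix J) : Kz S o σ τ z i = kc S o τ i * z (sw σ i) := by
  cases i with
  | inl n => simp [Kz, kc]
  | inr j => rfl

lemma grp_fin (hK : Kern g L C B M c) (i : Ix J) : {a : Ix J | gr g a = gr g i}.Finite := by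
  refine Set.Finite.subset (((Set.finite_singleton (gr g i)).image Sum.inl).union
    ((hK.fin (gr g i)).image Sum.inr)) ?_
  intro a ha
  cases a with
  | inl n => exact Or.inl ⟨n, ha, rfl⟩
  | inr j => exact Or.inr ⟨j, ha, rfl⟩

/-- the group of a mode as a finite set -/
noncomputable def Fi (hK : Kern g L C B M c) (i : Ix J) : Finset (Ix J) := (grp_fin hK i).toFinset

lemma lin_eq (hK : Kern g L C B M c) (hD : Dis g ℓ ρ E D) (x : Ix J → ℝ) (i : Ix J) :
    lin D x i = ∑ a ∈ Fi hK i, D i a * x a := by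
  unfold lin
  refine tsum_eq_sum fun a ha => ?_
  have h1 : D i a = 0 := by
    by_contra h0
    apply ha
    unfold Fi
    rw [Set.Finite.mem_toFinset]
    exact (hD.blk i a h0).symm
  rw [h1, zero_mul]

/-- the vector field -/
noncomputable def G (S : ℕ → ℝ) (o : J → ℕ) (σ : J → J) (τ : J → ℝ) (D : Ix J → Ix J → ℝ)
    (c : Ix J → Ix J → Ix J → ℝ) (z : Ix J → ℝ) (i : Ix J) : ℝ :=
  Kz S o σ τ z i - lin D z i + qd c z i

/-- the Lipschitz constant -/
noncomputable def Lc (hK : Kern g L C B M c) (S : ℕ → ℝ) (o : J → ℕ) (τ : J → ℝ)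
    (D : Ix J → Ix J → ℝ) (i : Ix J) : ℝ :=
  |kc S o τ i| + ∑ a ∈ Fi hK i, |D i a| + M (gr g i)

lemma Lc_nonneg (hK : Kern g L C B M c) (hM : ∀ n, 1 ≤ M n) (i : Ix J) :
    0 ≤ Lc hK S o τ D i := by
  have h1 := hM (gr g i)
  have h2 : 0 ≤ ∑ a ∈ Fi hK i, |D i a| := Finset.sum_nonneg fun a _ => abs_nonneg _
  have h3 := abs_nonneg (kc S o τ i)
  unfold Lc
  linarith

lemma G_le (hK : Kern g L C B M c) (hM : ∀ n, 1 ≤ M n) (hD : Dis g ℓ ρ E D) {x : Ix J → ℝ}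
    (h1 : ∀ a, |x a| ≤ 1) (hs : Summable (fun a => x a ^ 2)) (h2 : ∑' a, x a ^ 2 ≤ 1)
    (i : Ix J) : |G S o σ τ D c x i| ≤ Lc hK S o τ D i := by
  unfold G Lc
  have e1 : |Kz S o σ τ x i| ≤ |kc S o τ i| := by
    rw [Kz_eq, abs_mul]
    have := h1 (sw σ i)
    have h0 := abs_nonneg (kc S o τ i)
    nlinarith
  have e2 : |lin D x i| ≤ ∑ a ∈ Fi hK i, |D i a| := by
    rw [lin_eq hK hD]
    refine (Finset.abs_sum_le_sum_abs _ _).trans (Finset.sum_le_sum fun a _ => ?_)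
    rw [abs_mul]
    have := h1 a
    have h0 := abs_nonneg (D i a)
    nlinarith
  have e3 : |qd c x i| ≤ M (gr g i) := by
    refine (hK.quad i x hs).trans ?_
    have := hM (gr g i)
    nlinarith
  calc |Kz S o σ τ x i - lin D x i + qd c x i|
      ≤ |Kz S o σ τ x i - lin D x i| + |qd c x i| := abs_add_le _ _
    _ ≤ (|Kz S o σ τ x i| + |lin D x i|) + |qd c x i| := by
        have := abs_sub (Kz S o σ τ x i) (lin D x i)
        linarith
    _ ≤ _ := by linarith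

/-- the modulus of continuity of the vector field -/
noncomputable def wG (hK : Kern g L C B M c) (S : ℕ → ℝ) (o : J → ℕ) (σ : J → J) (τ : J → ℝ)
    (D : Ix J → Ix J → ℝ) (Bd : Ix J → ℝ) (i : Ix J) (δ : ℝ) : ℝ :=
  (|kc S o τ i| * Lc hK S o τ D (sw σ i) + ∑ a ∈ Fi hK i, |D i a| * Lc hK S o τ D a) * δ +
    wq c Bd (Lc hK S o τ D) i δ

lemma coef_nonneg (hK : Kern g L C B M c) (hM : ∀ n, 1 ≤ M n) (i : Ix J) :
    0 ≤ |kc S o τ i| * Lc hK S o τ D (sw σ i) + ∑ a ∈ Fi hK i, |D i a| * Lc hK S o τ D a :=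
  add_nonneg (mul_nonneg (abs_nonneg _) (Lc_nonneg hK hM _))
    (Finset.sum_nonneg fun a _ => mul_nonneg (abs_nonneg _) (Lc_nonneg hK hM _))

lemma wG_mono (hK : Kern g L C B M c) (hM : ∀ n, 1 ≤ M n) {Bd : Ix J → ℝ}
    (hB : ∀ a, 0 ≤ Bd a) (hs : Summable Bd) (i : Ix J) {δ δ' : ℝ} (hδ : 0 ≤ δ) (h : δ ≤ δ') :
    wG hK S o σ τ D Bd i δ ≤ wG hK S o σ τ D Bd i δ' :=
  add_le_add (mul_le_mul_of_nonneg_left h (coef_nonneg hK hM i))
    (wq_mono (fun a b => hK.size i a b) hB hs (Lc_nonneg hK hM) hδ h)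

lemma wG_tendsto (hK : Kern g L C B M c) (hM : ∀ n, 1 ≤ M n) {Bd : Ix J → ℝ}
    (hB : ∀ a, 0 ≤ Bd a) (hs : Summable Bd) (i : Ix J) :
    Tendsto (wG hK S o σ τ D Bd i) (𝓝[≥] 0) (𝓝 0) := by
  have hc : Continuous (fun δ : ℝ => (|kc S o τ i| * Lc hK S o τ D (sw σ i) +
    ∑ a ∈ Fi hK i, |D i a| * Lc hK S o τ D a) * δ) := by fun_prop
  have h2 := (hc.tendsto 0).mono_left (nhdsWithin_le_nhds (s := Ici 0))
  have h3 := h2.add (wq_tendsto (c := c) (Lc := Lc hK S o τ D) (fun a b => hK.size i a b) hB hs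
    (Lc_nonneg hK hM))
  rw [mul_zero, add_zero] at h3
  exact h3

lemma G_diff (hK : Kern g L C B M c) (hM : ∀ n, 1 ≤ M n) (hD : Dis g ℓ ρ E D) {Bd : Ix J → ℝ}
    (hB : ∀ a, 0 ≤ Bd a) (hs : Summable Bd) {x y : Ix J → ℝ} (hx : Ctl Bd x) (hy : Ctl Bd y)
    {δ : ℝ} (hδ : 0 ≤ δ) (hd : ∀ a, |x a - y a| ≤ Lc hK S o τ D a * δ) (i : Ix J) :
    |G S o σ τ D c x i - G S o σ τ D c y i| ≤ wG hK S o σ τ D Bd i δ := by
  unfold G wG
  have h1 : Kz S o σ τ x i - lin D x i + qd c x i - (Kz S o σ τ y i - lin D y i + qd c y i) =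
      kc S o τ i * (x (sw σ i) - y (sw σ i)) - ∑ a ∈ Fi hK i, D i a * (x a - y a) +
        (qd c x i - qd c y i) := by
    rw [Kz_eq, Kz_eq, lin_eq hK hD, lin_eq hK hD]
    have : ∑ a ∈ Fi hK i, D i a * (x a - y a) =
        ∑ a ∈ Fi hK i, D i a * x a - ∑ a ∈ Fi hK i, D i a * y a := by
      rw [← Finset.sum_sub_distrib]
      exact Finset.sum_congr rfl fun a _ => by ring
    rw [this]
    ring
  rw [h1]
  refine (abs_add_le _ _).trans (add_le_add ?_
    (qd_diff (fun a b => hK.size i a b) hB hs (Lc_nonneg hK hM) hx hy hδ hd))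
  have e1 : |kc S o τ i * (x (sw σ i) - y (sw σ i))| ≤
      |kc S o τ i| * Lc hK S o τ D (sw σ i) * δ := by
    rw [abs_mul, mul_assoc]
    exact mul_le_mul_of_nonneg_left (hd _) (abs_nonneg _)
  have e2 : |∑ a ∈ Fi hK i, D i a * (x a - y a)| ≤
      (∑ a ∈ Fi hK i, |D i a| * Lc hK S o τ D a) * δ := by
    rw [Finset.sum_mul]
    refine (Finset.abs_sum_le_sum_abs _ _).trans (Finset.sum_le_sum fun a _ => ?_)
    rw [abs_mul, mul_assoc]
    exact mul_le_mul_of_nonneg_left (hd _) (abs_nonneg _)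
  have e3 := abs_sub (kc S o τ i * (x (sw σ i) - y (sw σ i)))
    (∑ a ∈ Fi hK i, D i a * (x a - y a))
  rw [add_mul]
  linarith

/-! ### The truncated solutions -/

lemma lev_fin (hR : Rot o σ τ) (N : ℕ) : {i : Ix J | lv o i ≤ N}.Finite := by
  refine Set.Finite.subset (((Set.finite_Iic N).image Sum.inl).union
    ((hR.fin N).image Sum.inr)) ?_
  intro i hi
  cases i with
  | inl n => exact Or.inl ⟨n, hi, rfl⟩
  | inr j => exact Or.inr ⟨j, hi, rfl⟩

lemma ts_summable (hR : Rot o σ τ) {N : ℕ} {z : Ix J → ℝ → ℝ} (hz : TSol Θ S o σ τ D c N z)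
    (t : ℝ) : Summable (fun a => z a t ^ 2) := by
  refine summable_of_ne_finset_zero (s := (lev_fin hR N).toFinset) ?_
  intro b hb
  rw [Set.Finite.mem_toFinset, Set.mem_ofPred_eq, not_le] at hb
  rw [hz.zero b hb t]
  simp

lemma ts_one (hR : Rot o σ τ) {N : ℕ} {z : Ix J → ℝ → ℝ} (hz : TSol Θ S o σ τ D c N z)
    {t : ℝ} (ht : t ∈ Icc (0 : ℝ) Θ) (a : Ix J) : |z a t| ≤ 1 := by
  have h1 : z a t ^ 2 ≤ ∑' a, z a t ^ 2 := (ts_summable hR hz t).le_tsum a fun b _ => sq_nonneg _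
  have h3 : z a t ^ 2 ≤ 1 := h1.trans (hz.energy t ht)
  exact (sq_le_one_iff_abs_le_one _).1 h3

lemma ts_lip (hK : Kern g L C B M c) (hM : ∀ n, 1 ≤ M n) (hD : Dis g ℓ ρ E D) (hR : Rot o σ τ)
    {N : ℕ} {z : Ix J → ℝ → ℝ} (hz : TSol Θ S o σ τ D c N z) (a : Ix J) {s t : ℝ}
    (hs' : s ∈ Icc (0 : ℝ) Θ) (ht : t ∈ Icc (0 : ℝ) Θ) :
    |z a t - z a s| ≤ Lc hK S o τ D a * |t - s| := by
  by_cases ha : lv o a ≤ N
  · exact (convex_Icc (0 : ℝ) Θ).norm_image_sub_le_of_norm_hasDerivWithin_le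
      (fun r hr => hz.deriv a ha r hr)
      (fun r hr => G_le (S := S) (o := o) (σ := σ) (τ := τ) hK hM hD (ts_one hR hz hr)
        (ts_summable hR hz r) (hz.energy r hr) a) hs' ht
  · rw [not_le] at ha
    rw [hz.zero a ha, hz.zero a ha, sub_zero, abs_zero]
    exact mul_nonneg (Lc_nonneg hK hM a) (abs_nonneg _)

lemma ts_taylor (hK : Kern g L C B M c) (hM : ∀ n, 1 ≤ M n) (hD : Dis g ℓ ρ E D)
    (hR : Rot o σ τ) {Bd : Ix J → ℝ} (hB : ∀ a, 0 ≤ Bd a) (hs : Summable Bd)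
    {N : ℕ} {z : Ix J → ℝ → ℝ} (hz : TSol Θ S o σ τ D c N z) {θ : ℝ} (hθ : θ ≤ Θ)
    (hb : ∀ t ∈ Icc (0 : ℝ) θ, ∀ a, |z a t| ≤ Bd a) (i : Ix J)
    (hi : lv o i ≤ N) {s t : ℝ} (hs' : s ∈ Icc (0 : ℝ) θ) (ht : t ∈ Icc (0 : ℝ) θ) :
    |z i t - z i s - (t - s) * G S o σ τ D c (fun a => z a s) i|
      ≤ wG hK S o σ τ D Bd i |t - s| * |t - s| := by
  have hsub : uIcc s t ⊆ Icc (0 : ℝ) θ := uIcc_subset_Icc hs' ht
  have hsub2 : Icc (0 : ℝ) θ ⊆ Icc (0 : ℝ) Θ := Icc_subset_Icc_right hθ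
  have hctl : ∀ r ∈ Icc (0 : ℝ) θ, Ctl Bd (fun a => z a r) := fun r hr =>
    ⟨ts_one hR hz (hsub2 hr), hb r hr⟩
  set q := G S o σ τ D c (fun a => z a s) i with hq
  have h1 : ∀ r ∈ uIcc s t, HasDerivWithinAt (fun r => z i r - r * q)
      (G S o σ τ D c (fun a => z a r) i - 1 * q) (uIcc s t) r := by
    intro r hr
    exact ((hz.deriv i hi r (hsub2 (hsub hr))).mono (hsub.trans hsub2)).sub
      ((hasDerivWithinAt_id r _).mul_const q)
  have h2 : ∀ r ∈ uIcc s t, ‖G S o σ τ D c (fun a => z a r) i - 1 * q‖ ≤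
      wG hK S o σ τ D Bd i |t - s| := by
    intro r hr
    rw [one_mul, Real.norm_eq_abs]
    refine (G_diff hK hM hD hB hs (hctl r (hsub hr)) (hctl s hs')
      (abs_nonneg (r - s)) (fun a => ts_lip hK hM hD hR hz a (hsub2 hs')
        (hsub2 (hsub hr))) i).trans ?_
    exact wG_mono hK hM hB hs i (abs_nonneg _) (abs_sub_left_of_mem_uIcc hr)
  have h3 := (convex_uIcc s t).norm_image_sub_le_of_norm_hasDerivWithin_le h1 h2
    left_mem_uIcc right_mem_uIcc
  have h4 : z i t - t * q - (z i s - s * q) = z i t - z i s - (t - s) * q := by ring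
  rw [h4] at h3
  exact h3

/-! ### The limit -/

theorem t_LIM2 : S_LIM2 := by
  intro J g o σ τ lm L C M ℓ ρ E B D c Θ S b hK hSeq hR hD hΘ hb0 hbs Z hZ hZb U hU
  have hM : ∀ n, 1 ≤ M n := hSeq.M_one
  have hone : ∀ N, ∀ t ∈ Icc (0 : ℝ) Θ, ∀ a, |Z N a t| ≤ 1 := fun N t ht a =>
    ts_one hR (hZ N) ht a
  have hex : ∀ i : Ix J, ∀ t : ℝ, ∃ x : ℝ, t ∈ Icc (0 : ℝ) Θ →
      Tendsto (fun N => Z N i t) U (𝓝 x) := by
    intro i t
    by_cases ht : t ∈ Icc (0 : ℝ) Θ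
    · have hc : IsCompact (Icc (-1 : ℝ) 1) := isCompact_Icc
      have hm : (U.map (fun N => Z N i t) : Filter ℝ) ≤ 𝓟 (Icc (-1 : ℝ) 1) := by
        rw [le_principal_iff]
        exact Filter.mem_map.2 (Filter.univ_mem' fun N => abs_le.1 (hone N t ht i))
      obtain ⟨x, _, hx⟩ := hc.ultrafilter_le_nhds (U.map (fun N => Z N i t)) hm
      exact ⟨x, fun _ => hx⟩
    · exact ⟨0, fun h => absurd h ht⟩
  choose z hz using hex
  have hlim : ∀ i, ∀ t ∈ Icc (0 : ℝ) Θ, Tendsto (fun N => Z N i t) U (𝓝 (z i t)) :=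
    fun i t ht => hz i t ht
  have hge : ∀ i, ∀ᶠ N in (U : Filter ℕ), lv o i ≤ N := fun i => hU (eventually_ge_atTop _)
  have h0 : (0 : ℝ) ∈ Icc (0 : ℝ) Θ := ⟨le_rfl, hΘ.le⟩
  refine ⟨z, hlim, ⟨?_, fun n => ?_, fun w => ?_⟩, ?_, ?_, ?_⟩
  · exact tendsto_nhds_unique (hlim _ 0 h0)
      (tendsto_const_nhds.congr fun N => ((hZ N).init.1).symm)
  · exact tendsto_nhds_unique (hlim _ 0 h0)
      (tendsto_const_nhds.congr fun N => ((hZ N).init.2.1 n).symm)
  · exact tendsto_nhds_unique (hlim _ 0 h0)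
      (tendsto_const_nhds.congr fun N => ((hZ N).init.2.2 w).symm)
  · intro t ht
    have h1 : ∀ F : Finset (Ix J), ∑ a ∈ F, z a t ^ 2 ≤ 1 := by
      intro F
      have h2 : Tendsto (fun N => ∑ a ∈ F, Z N a t ^ 2) U (𝓝 (∑ a ∈ F, z a t ^ 2)) :=
        tendsto_finsetSum _ fun a _ => (hlim a t ht).pow 2
      refine le_of_tendsto h2 (Eventually.of_forall fun N => ?_)
      exact ((ts_summable hR (hZ N) t).sum_le_tsum F fun a _ => sq_nonneg _).trans
        ((hZ N).energy t ht)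
    exact ⟨summable_of_sum_le (fun a => sq_nonneg _) h1,
      Real.tsum_le_of_sum_le (fun a => sq_nonneg _) h1⟩
  · intro j t ht
    exact le_of_tendsto (hlim (Sum.inr j) t ht).abs
      (Eventually.of_forall fun N => hZb N j t ht)
  · rintro θ hθ0 hθ ⟨X, hX⟩ i s hs'
    have hsub : Icc (0 : ℝ) θ ⊆ Icc (0 : ℝ) Θ := Icc_subset_Icc_right hθ
    have hB := Bd_nonneg (b := b) hSeq hb0 X
    have hBs := Bd_summable hSeq hbs X
    -- the bound holds for almost all `N`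
    have hbd : ∀ᶠ N in (U : Filter ℕ), ∀ t ∈ Icc (0 : ℝ) θ, ∀ a, |Z N a t| ≤ Bd L b X a := by
      filter_upwards [hX] with N hN t ht a
      cases a with
      | inl n =>
        have h1 := L_two hSeq n
        have h2 : (0 : ℝ) < 2 ^ n := by positivity
        have h3 : 0 < L n := by linarith
        show |Z N (Sum.inl n) t| ≤ |X| / L n
        rw [le_div_iff₀ h3, mul_comm]
        exact (hN t ht n).trans (le_abs_self X)
      | inr j => exact hZb N j t (hsub ht)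
    have hq : ∀ i, ∀ t ∈ Icc (0 : ℝ) θ,
        Tendsto (fun N => G S o σ τ D c (fun a => Z N a t) i) U
          (𝓝 (G S o σ τ D c (fun a => z a t) i)) := by
      intro i t ht
      unfold G
      refine Tendsto.add (Tendsto.sub ?_ ?_) ?_
      · simp_rw [Kz_eq]
        exact (hlim _ t (hsub ht)).const_mul _
      · simp_rw [lin_eq hK hD]
        exact tendsto_finsetSum _ fun a _ => (hlim a t (hsub ht)).const_mul _
      · unfold qd
        refine tendsto_tsum_of_dominated_convergence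
          (dom_summable (c := c) (i := i) (fun a b => hK.size i a b) hB hBs) ?_ ?_
        · intro p
          exact ((hlim p.1 t (hsub ht)).const_mul _).mul (hlim p.2 t (hsub ht))
        · filter_upwards [hbd] with N hN p
          have hctl : Ctl (Bd L b X) (fun a => Z N a t) := ⟨hone N t (hsub ht), hN t ht⟩
          exact hctl.term hctl i p
    have htay : ∀ i, ∀ s ∈ Icc (0 : ℝ) θ, ∀ t ∈ Icc (0 : ℝ) θ,
        |z i t - z i s - (t - s) * G S o σ τ D c (fun a => z a s) i|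
          ≤ wG hK S o σ τ D (Bd L b X) i |t - s| * |t - s| := by
      intro i s hs' t ht
      have h1 : Tendsto (fun N => |Z N i t - Z N i s -
          (t - s) * G S o σ τ D c (fun a => Z N a s) i|)
          U (𝓝 |z i t - z i s - (t - s) * G S o σ τ D c (fun a => z a s) i|) :=
        (((hlim i t (hsub ht)).sub (hlim i s (hsub hs'))).sub ((hq i s hs').const_mul _)).abs
      refine le_of_tendsto h1 ?_
      filter_upwards [hge i, hbd] with N hN hNb
      exact ts_taylor hK hM hD hR hB hBs (hZ N) hθ hNb i hN hs' ht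
    show HasDerivWithinAt (z i) (G S o σ τ D c (fun a => z a s) i) (Icc 0 θ) s
    rw [hasDerivWithinAt_iff_isLittleO, Asymptotics.isLittleO_iff]
    intro ε hε
    have hw := wG_tendsto (S := S) (o := o) (σ := σ) (τ := τ) (D := D) hK hM hB hBs i
    have h1 : ∀ᶠ δ in 𝓝[≥] (0 : ℝ), wG hK S o σ τ D (Bd L b X) i δ < ε :=
      hw.eventually_lt_const hε
    have h2 : Tendsto (fun t : ℝ => |t - s|) (𝓝[Icc 0 θ] s) (𝓝[≥] 0) := by
      refine tendsto_nhdsWithin_iff.2 ⟨?_, Eventually.of_forall fun t =>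
        Set.mem_Ici.2 (abs_nonneg _)⟩
      have hc : Continuous (fun t : ℝ => |t - s|) := by fun_prop
      have := hc.tendsto s
      rw [sub_self, abs_zero] at this
      exact this.mono_left nhdsWithin_le_nhds
    filter_upwards [h2.eventually h1, self_mem_nhdsWithin] with t ht ht'
    rw [Real.norm_eq_abs, Real.norm_eq_abs, smul_eq_mul]
    exact (htay i s hs' t ht').trans (mul_le_mul_of_nonneg_right ht.le (abs_nonneg _))

end Pool.Agent.Y665.NSK
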